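import Mathlib

namespace Pool.Agent.Results.MP_52c232_nt.Cube

/-- The example matrix. -/
def A : Matrix (Fin 5) (Fin 5) ℤ :=
  !![4, 2, -3, -3, 3;
     -3, -2, 3, 2, -2;
     3, -4, 3, -4, 3;
     -3, 3, 2, 3, -2;
     -2, -7, 3, 2, -6]

theorem cube : A.map (fun x => x ^ 3) =
  !![64, 8, -27, -27, 27;
     -27, -8, 27, 8, -8;
     27, -64, 27, -64, 27;
     -27, 27, 8, 27, -8;
     -8, -343, 27, 8, -216] := by
  ext i j
  fin_cases i <;> fin_cases j <;> rfl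

theorem result : ∃ (n : ℕ) (A : Matrix (Fin n) (Fin n) ℤ), 1 ≤ n ∧
    (∀ i j, A i j ≠ -1 ∧ A i j ≠ 0 ∧ A i j ≠ 1) ∧
    A.det = 1 ∧ (A.map (fun x => x ^ 3)).det = 1 := by
  refine ⟨5, A, by norm_num, ?_, ?_, ?_⟩
  · intro i j
    fin_cases i <;> fin_cases j <;> decide
  · simp [A, Matrix.det_succ_row_zero, Fin.sum_univ_succ, Fin.succAbove]
  · rw [cube]
    simp [Matrix.det_succ_row_zero, Fin.sum_univ_succ, Fin.succAbove]

end Pool.Agent.Results.MP_52c232_nt.Cube
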